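import Pool.Agent.WAQ.StmtsB

/-!
# WAQ, row BLO (helper95): the p-adic numbers are local fields in the sense of IsLoc
-/

set_option autoImplicit false

namespace Pool.Agent.WAQ.H95

open Pool.Agent.WAQ Classical

/-- square roots near 1 -/
theorem sqrt_aux {F : Type} [NormedField F] [CompleteSpace F]
    (hu : ∀ x y : F, ‖x + y‖ ≤ max ‖x‖ ‖y‖) (a : F) (ha : ‖a‖ < 1) :
    ∃ s : F, s + s ^ 2 = a ∧ ‖s‖ ≤ ‖a‖ := by
  have hball : IsComplete (Metric.closedBall (0 : F) ‖a‖) :=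
    Metric.isClosed_closedBall.isComplete
  set g : F → F := fun s => a - s ^ 2 with hg
  have hmaps : Set.MapsTo g (Metric.closedBall (0 : F) ‖a‖) (Metric.closedBall (0 : F) ‖a‖) := by
    intro s hs
    rw [mem_closedBall_zero_iff] at hs ⊢
    have h1 : ‖a - s ^ 2‖ ≤ max ‖a‖ ‖s ^ 2‖ := by
      have := hu a (-(s ^ 2))
      rw [norm_neg] at this
      rw [sub_eq_add_neg]
      exact this
    have h2 : ‖s ^ 2‖ ≤ ‖a‖ := by
      rw [norm_pow]
      have h0 := norm_nonneg s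
      have h3 := norm_nonneg a
      nlinarith
    exact h1.trans (max_le le_rfl h2)
  have hK : ContractingWith ⟨‖a‖, norm_nonneg a⟩ (hmaps.restrict g _ _) := by
    refine ⟨by exact_mod_cast ha, ?_⟩
    apply LipschitzWith.of_dist_le_mul
    rintro ⟨s, hs⟩ ⟨t, ht⟩
    rw [mem_closedBall_zero_iff] at hs ht
    show dist (a - s ^ 2) (a - t ^ 2) ≤ ‖a‖ * dist s t
    rw [dist_eq_norm, dist_eq_norm]
    have e : a - s ^ 2 - (a - t ^ 2) = -((s + t) * (s - t)) := by ring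
    rw [e, norm_neg, norm_mul]
    apply mul_le_mul_of_nonneg_right _ (norm_nonneg _)
    exact (hu s t).trans (max_le hs ht)
  have h0 : (0 : F) ∈ Metric.closedBall (0 : F) ‖a‖ := by simp
  obtain ⟨s, hs, hfix, _⟩ := hK.exists_fixedPoint' hball hmaps h0 (edist_ne_top _ _)
  refine ⟨s, ?_, ?_⟩
  · have h1 : a - s ^ 2 = s := hfix
    linear_combination -h1
  · rwa [mem_closedBall_zero_iff] at hs

variable [Par]

theorem blo : BloStmt := by
  intro p hp hg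
  have hult : ∀ x y : ℚ_[p], ‖x + y‖ ≤ max ‖x‖ ‖y‖ := Padic.nonarchimedean
  have hp1 : 1 < (p : ℝ) := by exact_mod_cast hp.out.one_lt
  have hnp : ‖am ℚ_[p] (p : ℤ)‖ = (p : ℝ)⁻¹ := by
    rw [am_apply, Int.cast_natCast]
    exact Padic.norm_p
  refine ⟨Nat.prime_iff_prime_int.1 hp.out, ?_, ?_, hg.gda, hg.gdb, hg.gdab, ?_, hult, ?_, ?_,
    ?_, ?_, ?_, inferInstance, ?_⟩
  · exact_mod_cast hp.out.pos
  · intro h
    have h1 : p ∣ 2 := by exact_mod_cast h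
    exact hg.odd ((Nat.prime_dvd_prime_iff_eq hp.out Nat.prime_two).1 h1)
  · rw [Int.natAbs_natCast]
    exact hg.cyc
  · intro a
    exact Padic.norm_int_le_one a
  · intro a
    exact Padic.norm_intCast_lt_one_iff
  · intro x hx
    obtain ⟨n, _, hn⟩ := PadicInt.exists_mem_range (⟨x, hx⟩ : ℤ_[p])
    rw [IsLocalRing.mem_maximalIdeal, PadicInt.mem_nonunits, PadicInt.norm_def] at hn
    refine ⟨(n : ℤ), ?_⟩
    rw [am_apply, Int.cast_natCast]
    simpa using hn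
  · intro x hx
    refine ⟨x.valuation, ?_⟩
    rw [Padic.norm_eq_zpow_neg_valuation hx, hnp, inv_zpow, zpow_neg]
  · rw [hnp]
    positivity
  · intro x hx
    have h4 : (4 : ℚ_[p]) ≠ 0 := by norm_num
    have h2 : (2 : ℚ_[p]) ≠ 0 := by norm_num
    have h4n : 0 < ‖(4 : ℚ_[p])‖ := norm_pos_iff.2 h4
    have h2n : 0 < ‖(2 : ℚ_[p])‖ := norm_pos_iff.2 h2
    have h42 : ‖(4 : ℚ_[p])‖ = ‖(2 : ℚ_[p])‖ * ‖(2 : ℚ_[p])‖ := by
      rw [← norm_mul]
      norm_num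
    set a : ℚ_[p] := (x - 1) / 4 with ha
    have hxa : x = 1 + 4 * a := by
      rw [ha]
      field_simp
      ring
    have han : ‖a‖ = ‖x - 1‖ / ‖(4 : ℚ_[p])‖ := by rw [ha, norm_div]
    have ha1 : ‖a‖ < 1 := by
      rw [han, div_lt_one h4n]
      exact hx
    obtain ⟨s, hs1, hs2⟩ := sqrt_aux hult a ha1
    refine ⟨1 + 2 * s, ?_, ?_⟩
    · rw [hxa]
      linear_combination 4 * hs1
    · have e : 1 + 2 * s - 1 = 2 * s := by ring
      rw [e, norm_mul]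
      calc ‖(2 : ℚ_[p])‖ * ‖s‖ * ‖(2 : ℚ_[p])‖
          = ‖(4 : ℚ_[p])‖ * ‖s‖ := by rw [h42]; ring
        _ ≤ ‖(4 : ℚ_[p])‖ * ‖a‖ := mul_le_mul_of_nonneg_left hs2 h4n.le
        _ = ‖x - 1‖ := by rw [han]; field_simp

end Pool.Agent.WAQ.H95
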