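import Pool.Agent.WAQ.StmtsB

/-!
# WAQ, row BWA (helper95): weak approximation in `Q` at finitely many primes and the real place
-/

set_option autoImplicit false

namespace Pool.Agent.WAQ.H95

open Pool.Agent.WAQ Classical

variable [Par]

section loc
variable {F : Type} [NormedField F] {ϖ : ℤ}

theorem loc_q_lt (h : IsLoc F ϖ) : ‖am F ϖ‖ < 1 :=
  (h.lt_one ϖ).2 (dvd_refl _)

theorem loc_le_q (h : IsLoc F ϖ) (y : F) (hy : ‖y‖ < 1) : ‖y‖ ≤ ‖am F ϖ‖ := by
  by_cases h0 : y = 0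
  · rw [h0, norm_zero]
    exact h.uni.le
  · obtain ⟨n, hn⟩ := h.val y h0
    have hq := loc_q_lt h
    have hn1 : 1 ≤ n := by
      by_contra hcon
      push Not at hcon
      have h1 : n ≤ 0 := by omega
      have h2 : 1 ≤ ‖am F ϖ‖ ^ n :=
        one_le_zpow_of_nonpos₀ h.uni hq.le h1
      rw [← hn] at h2
      exact absurd hy (not_lt.2 h2)
    rw [hn]
    calc ‖am F ϖ‖ ^ n ≤ ‖am F ϖ‖ ^ (1 : ℤ) :=
          zpow_le_zpow_right_of_le_one₀ h.uni hq.le hn1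
      _ = _ := zpow_one _

theorem loc_pi_ne (h : IsLoc F ϖ) : am F ϖ ≠ 0 := norm_pos_iff.1 h.uni

/-- digits -/
theorem loc_digits (h : IsLoc F ϖ) (x : F) (hx : ‖x‖ ≤ 1) (n : ℕ) :
    ∃ a : ℤ, ‖x - am F a‖ ≤ ‖am F ϖ‖ ^ n := by
  induction n with
  | zero =>
    refine ⟨0, ?_⟩
    simpa using hx
  | succ n ih =>
    obtain ⟨a, ha⟩ := ih
    set p := am F ϖ with hp
    have hp0 : p ≠ 0 := loc_pi_ne h
    have hpn : 0 < ‖p‖ ^ n := pow_pos h.uni n
    have h1 : ‖(x - am F a) / p ^ n‖ ≤ 1 := by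
      rw [norm_div, norm_pow, div_le_one hpn]
      exact ha
    obtain ⟨b, hb⟩ := h.res _ h1
    have hb' := loc_le_q h _ hb
    refine ⟨a + b * ϖ ^ n, ?_⟩
    have e : x - am F (a + b * ϖ ^ n) =
        ((x - am F a) / p ^ n - am F b) * p ^ n := by
      rw [map_add, map_mul, map_pow, ← hp]
      field_simp
      ring
    rw [e, norm_mul, norm_pow, pow_succ, mul_comm (‖p‖ ^ n)]
    exact mul_le_mul_of_nonneg_right hb' hpn.le

theorem map_am {K : Type} [Field K] (σ : K →+* F) (a : ℤ) : σ (am K a) = am F a := by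
  rw [am_apply, am_apply, map_intCast]

/-- `Q` is dense in `F` -/
theorem loc_dense (h : IsLoc F ϖ) (σ : ℚ →+* F) (x : F) (ε : ℝ) (hε : 0 < ε) :
    ∃ t : ℚ, ‖x - σ t‖ < ε := by
  set p := am F ϖ with hp
  have hp0 : p ≠ 0 := loc_pi_ne h
  have hq := loc_q_lt h
  -- make x integral
  obtain ⟨n, hn⟩ : ∃ n : ℕ, ‖p ^ n * x‖ ≤ 1 := by
    obtain ⟨n, hn⟩ := exists_pow_lt_of_lt_one (show (0 : ℝ) < 1 / (‖x‖ + 1) by positivity) hq
    refine ⟨n, ?_⟩
    rw [norm_mul, norm_pow]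
    have h1 : ‖p‖ ^ n * ‖x‖ ≤ 1 / (‖x‖ + 1) * ‖x‖ :=
      mul_le_mul_of_nonneg_right hn.le (norm_nonneg _)
    refine h1.trans ?_
    rw [one_div_mul_eq_div, div_le_one (by positivity)]
    linarith
  have hpn : 0 < ‖p‖ ^ n := pow_pos h.uni n
  obtain ⟨m, hm⟩ := exists_pow_lt_of_lt_one (show (0 : ℝ) < ε * ‖p‖ ^ n by positivity) hq
  obtain ⟨a, ha⟩ := loc_digits h _ hn m
  refine ⟨am ℚ a / am ℚ ϖ ^ n, ?_⟩
  have e : x - σ (am ℚ a / am ℚ ϖ ^ n) =
      (p ^ n * x - am F a) / p ^ n := by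
    rw [map_div₀, map_pow, map_am, map_am, ← hp]
    field_simp
  rw [e, norm_div, norm_pow, div_lt_iff₀ hpn]
  exact ha.trans_lt hm

end loc

omit [Par] in
/-- a common denominator -/
theorem common_den {ι : Type} (S : Finset ι) (t : ι → ℚ) :
    ∃ D : ℤ, D ≠ 0 ∧ ∀ v ∈ S, ∃ a : ℤ, (a : ℚ) = (D : ℚ) * t v := by
  induction S using Finset.induction_on with
  | empty => exact ⟨1, one_ne_zero, fun v hv => by simp at hv⟩
  | insert v S _ ih =>
    obtain ⟨D, hD, h⟩ := ih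
    refine ⟨D * (t v).den, mul_ne_zero hD (by exact_mod_cast (t v).den_ne_zero), ?_⟩
    intro w hw
    rcases Finset.mem_insert.1 hw with rfl | hw
    · refine ⟨D * (t w).num, ?_⟩
      push_cast
      have h1 : ((t w).num : ℚ) = (t w) * (t w).den := (Rat.mul_den_eq_num (t w)).symm
      rw [h1]
      ring
    · obtain ⟨a, ha⟩ := h w hw
      refine ⟨a * (t v).den, ?_⟩
      push_cast
      rw [ha]
      ring

theorem bwa (hcrt : CrtStmt) : BwaStmt := by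
  intro ι F _ ϖ σ τ S hloc hfam T T' hT hT'o hT'n
  -- approximations
  have hchoose : ∀ v : ι, ∃ (t : ℚ) (δ : ℝ), 0 < δ ∧ (v ∈ S → ∀ y : F v, ‖y - σ v t‖ < δ → y ∈ T v) := by
    intro v
    by_cases hv : v ∈ S
    · obtain ⟨ho, x, hx⟩ := hT v hv
      obtain ⟨ε, hε, hball⟩ := Metric.isOpen_iff.1 ho x hx
      obtain ⟨t, ht⟩ := loc_dense (hloc v hv) (σ v) x ε hε
      have htT : σ v t ∈ T v := by
        apply hball
        rw [mem_ball_iff_norm, ← norm_neg, neg_sub]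
        exact ht
      obtain ⟨δ, hδ, hball2⟩ := Metric.isOpen_iff.1 ho _ htT
      refine ⟨t, δ, hδ, fun _ y hy => hball2 ?_⟩
      rw [mem_ball_iff_norm]
      exact hy
    · exact ⟨0, 1, one_pos, fun h => absurd h hv⟩
  choose t δ hδ hTt using hchoose
  -- common denominator
  obtain ⟨D, hD0, hD⟩ := common_den S t
  have hDK : am ℚ D ≠ 0 := by
    rw [am_apply]
    exact_mod_cast hD0
  have hD' : ∀ v : ι, ∃ a : ℤ, v ∈ S → am ℚ a = am ℚ D * t v := by
    intro v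
    by_cases hv : v ∈ S
    · obtain ⟨a, ha⟩ := hD v hv
      exact ⟨a, fun _ => ha⟩
    · exact ⟨0, fun h => absurd h hv⟩
  choose a ha using hD'
  -- exponents
  have hN : ∀ v : ι, ∃ N : ℕ, v ∈ S → ‖am (F v) (ϖ v)‖ ^ N < δ v * ‖am (F v) D‖ := by
    intro v
    by_cases hv : v ∈ S
    · have h1 : 0 < ‖am (F v) D‖ :=
        norm_pos_iff.2 ((hloc v hv).am_ne hD0)
      obtain ⟨N, hN⟩ := exists_pow_lt_of_lt_one (mul_pos (hδ v) h1) (loc_q_lt (hloc v hv))
      exact ⟨N, fun _ => hN⟩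
    · exact ⟨0, fun h => absurd h hv⟩
  choose N hN using hN
  obtain ⟨k, hk⟩ := hcrt ι ϖ S N a (fun v hv => ⟨(hloc v hv).prime, (hloc v hv).pos⟩) hfam
  -- the modulus and the denominator
  set M : ℤ := ∏ v ∈ S, ϖ v ^ N v with hM
  set P : ℤ := ∏ v ∈ S, ϖ v with hP
  have hPpos : 0 < P := Finset.prod_pos fun v hv => (hloc v hv).pos
  set c : ℤ := 1 + P with hc
  have hcv : ∀ v ∈ S, ‖am (F v) c‖ = 1 := by
    intro v hv
    have h1 := (hloc v hv).int c
    refine le_antisymm h1 (not_lt.1 fun h2 => ?_)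
    have h3 : ϖ v ∣ c := ((hloc v hv).lt_one c).1 h2
    have h4 : ϖ v ∣ P := Finset.dvd_prod_of_mem _ hv
    have h7 : ϖ v ∣ 1 := by
      have e : (1 : ℤ) = c - P := by
        rw [hc]
        ring
      rw [e]
      exact dvd_sub h3 h4
    exact (hloc v hv).prime.not_isUnit (isUnit_of_dvd_one h7)
  have hc0 : c ≠ 0 := by omega
  have hcK : am ℚ c ≠ 0 := by
    rw [am_apply]
    exact_mod_cast hc0
  -- the finite places
  have hfinite : ∀ (b : ℤ) (n : ℕ), ∀ v ∈ S,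
      σ v ((am ℚ k + am ℚ (M * b) / am ℚ c ^ n) / am ℚ D) ∈ T v := by
    intro b n v hv
    apply hTt v hv
    have hl := hloc v hv
    have hDv : am (F v) D ≠ 0 := hl.am_ne hD0
    have hcv0 : am (F v) c ≠ 0 := hl.am_ne hc0
    have e1 : σ v (t v) = am (F v) (a v) / am (F v) D := by
      have h1 := congrArg (σ v) (ha v hv)
      rw [map_mul, map_am, map_am] at h1
      rw [h1, mul_div_cancel_left₀ _ hDv]
    have e2 : σ v ((am ℚ k + am ℚ (M * b) / am ℚ c ^ n) / am ℚ D) -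
        σ v (t v) = (am (F v) (k - a v) +
          am (F v) (M * b) / am (F v) c ^ n) / am (F v) D := by
      rw [e1, map_div₀, map_add, map_div₀, map_pow, map_am, map_am,
        map_am, map_am, map_sub]
      field_simp
      ring
    rw [e2, norm_div, div_lt_iff₀ (norm_pos_iff.2 hDv)]
    refine lt_of_le_of_lt ?_ (hN v hv)
    have hdiv : ∀ x : ℤ, ϖ v ^ N v ∣ x → ‖am (F v) x‖ ≤ ‖am (F v) (ϖ v)‖ ^ N v := by
      rintro x ⟨y, rfl⟩
      rw [map_mul, map_pow, norm_mul, norm_pow]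
      exact mul_le_of_le_one_right (pow_nonneg (norm_nonneg _) _) (hl.int y)
    refine (hl.ultra _ _).trans (max_le (hdiv _ (hk v hv)) ?_)
    rw [norm_div, norm_pow, hcv v hv, one_pow, div_one]
    apply hdiv
    exact (Finset.dvd_prod_of_mem (fun w => ϖ w ^ N w) hv).mul_right b
  -- the real place
  obtain ⟨z, hz⟩ := hT'n
  obtain ⟨ε, hε, hball⟩ := Metric.isOpen_iff.1 hT'o z hz
  have hM0 : M ≠ 0 := Finset.prod_ne_zero_iff.2 fun v hv =>
    pow_ne_zero _ (hloc v hv).prime.ne_zero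
  have hDC : am ℝ D ≠ 0 := by
    rw [am_apply]
    exact_mod_cast hD0
  have hMC : am ℝ M ≠ 0 := by
    rw [am_apply]
    exact_mod_cast hM0
  have hcC : am ℝ c ≠ 0 := by
    rw [am_apply]
    exact_mod_cast hc0
  have hcn : 1 < ‖am ℝ c‖ := by
    rw [am_apply, Real.norm_eq_abs]
    have h1 : (1 : ℝ) ≤ (P : ℝ) := by exact_mod_cast hPpos
    rw [hc]
    push_cast
    rw [abs_of_pos (by linarith)]
    linarith
  set A : ℝ := ‖am ℝ M / am ℝ D‖ with hA
  have hApos : 0 < A := norm_pos_iff.2 (div_ne_zero hMC hDC)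
  obtain ⟨n, hn⟩ := pow_unbounded_of_one_lt (A / ε) hcn
  -- the target for b
  obtain ⟨b, hb⟩ : ∃ b : ℤ, ‖(z * am ℝ D - am ℝ k) * am ℝ c ^ n / am ℝ M - am ℝ b‖ ≤ 1 := by
    refine ⟨round ((z * am ℝ D - am ℝ k) * am ℝ c ^ n / am ℝ M), ?_⟩
    rw [am_apply ℝ (round _), Real.norm_eq_abs]
    have := abs_sub_round ((z * am ℝ D - am ℝ k) * am ℝ c ^ n / am ℝ M)
    linarith
  refine ⟨_, hfinite b n, hball ?_⟩
  rw [mem_ball_iff_norm, ← norm_neg, neg_sub]
  have e : z - τ ((am ℚ k + am ℚ (M * b) / am ℚ c ^ n) / am ℚ D) =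
      ((z * am ℝ D - am ℝ k) * am ℝ c ^ n / am ℝ M - am ℝ b) *
        (am ℝ M / am ℝ D) / am ℝ c ^ n := by
    rw [map_div₀, map_add, map_div₀, map_pow, map_am, map_am,
      map_am, map_am, map_mul]
    field_simp
    ring
  rw [e, norm_div, norm_mul, norm_pow, div_lt_iff₀ (pow_pos (by linarith) n), ← hA]
  have h1 : A < ε * ‖am ℝ c‖ ^ n := by
    rw [div_lt_iff₀ hε] at hn
    linarith
  refine lt_of_le_of_lt ?_ h1
  exact mul_le_of_le_one_left hApos.le hb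

end Pool.Agent.WAQ.H95
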