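import Pool.Agent.Helper95_WAQ.RGRmain
import Pool.Agent.WAQ.StmtsT

set_option autoImplicit false

namespace Pool.Agent.WAQ.H95

open Pool.Agent.WAQ Pool.Agent.WAQ.R

variable [Par]

theorem rgr (adn : AdnStmt) (zad : ZadStmt) (hG : GoodF ℝ) : RgrStmt := by
  intro d hd
  exact rgr_core hd (adn ℝ hG d hd) (zad ℝ hG d hd)

end Pool.Agent.WAQ.H95
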