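import Pool.Agent.WAQ.StmtsR

set_option autoImplicit false

namespace Pool.Agent.WAQ.H95

open Pool.Agent.WAQ Pool.Agent.WAQ.R Pool.Agent.WAQ.G

attribute [local instance 10000] decR

variable [Par]

theorem rt3_0 (d : ℝ) : 0 ≤ rt3 d := le_max_left _ _
theorem rt3_a (d : ℝ) : d * ea ℝ ≤ rt3 d := le_trans (le_max_left _ _) (le_max_right _ _)
theorem rt3_b (d : ℝ) : d * eb ℝ ≤ rt3 d := le_trans (le_max_right _ _) (le_max_right _ _)

/-- at most one of the three square roots vanishes -/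
theorem pair_pos {d s1 s2 s3 X : ℝ} (hd : d ≠ 0) (h1 : 0 ≤ s1) (h2 : 0 ≤ s2) (h3 : 0 ≤ s3)
    (e1 : s1 ^ 2 = X) (e2 : s2 ^ 2 = X - d * ea ℝ) (e3 : s3 ^ 2 = X - d * eb ℝ) :
    0 < s1 + s2 ∧ 0 < s1 + s3 ∧ 0 < s2 + s3 := by
  have ha := ea_ne ℝ
  have hb := eb_ne ℝ
  have hab := eab_ne ℝ
  refine ⟨?_, ?_, ?_⟩
  · rcases eq_or_lt_of_le (add_nonneg h1 h2) with h | h
    · exfalso
      have h1' : s1 = 0 := by linarith
      have h2' : s2 = 0 := by linarith
      rw [h1'] at e1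
      rw [h2'] at e2
      exact mul_ne_zero hd ha (by linear_combination e2 - e1)
    · exact h
  · rcases eq_or_lt_of_le (add_nonneg h1 h3) with h | h
    · exfalso
      have h1' : s1 = 0 := by linarith
      have h2' : s3 = 0 := by linarith
      rw [h1'] at e1
      rw [h2'] at e3
      exact mul_ne_zero hd hb (by linear_combination e3 - e1)
    · exact h
  · rcases eq_or_lt_of_le (add_nonneg h2 h3) with h | h
    · exfalso
      have h1' : s2 = 0 := by linarith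
      have h2' : s3 = 0 := by linarith
      rw [h1'] at e2
      rw [h2'] at e3
      exact mul_ne_zero hd hab (by linear_combination e2 - e3)
    · exact h

/-- the constant growth -/
noncomputable def c0 (d : ℝ) : ℝ :=
  Real.sqrt (rt3 d) * Real.sqrt (rt3 d - d * ea ℝ) + Real.sqrt (rt3 d) * Real.sqrt (rt3 d - d * eb ℝ)
    + Real.sqrt (rt3 d - d * ea ℝ) * Real.sqrt (rt3 d - d * eb ℝ)

theorem c0_pos {d : ℝ} (hd : d ≠ 0) : 0 < c0 d := by
  unfold c0
  have h1 := Real.sqrt_nonneg (rt3 d)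
  have h2 := Real.sqrt_nonneg (rt3 d - d * ea ℝ)
  have h3 := Real.sqrt_nonneg (rt3 d - d * eb ℝ)
  have e1 := Real.sq_sqrt (rt3_0 d)
  have e2 := Real.sq_sqrt (sub_nonneg.2 (rt3_a d))
  have e3 := Real.sq_sqrt (sub_nonneg.2 (rt3_b d))
  obtain ⟨p1, p2, p3⟩ := pair_pos hd h1 h2 h3 e1 e2 e3
  generalize Real.sqrt (rt3 d) = s1 at *
  generalize Real.sqrt (rt3 d - d * ea ℝ) = s2 at *
  generalize Real.sqrt (rt3 d - d * eb ℝ) = s3 at *
  have k1 := mul_nonneg h1 h2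
  have k2 := mul_nonneg h1 h3
  have k3 := mul_nonneg h2 h3
  rcases eq_or_lt_of_le h1 with h | h
  · rw [← h] at p1 p2
    have := mul_pos (show 0 < s2 by linarith) (show 0 < s3 by linarith)
    linarith
  · rcases eq_or_lt_of_le h2 with h' | h'
    · rw [← h'] at p3
      have := mul_pos h (show 0 < s3 by linarith)
      linarith
    · have := mul_pos h h'
      linarith

theorem half_step {d : ℝ} (hd : d ≠ 0) (P : Pt d) (hP : P ≠ 0) (hX : rt3 d ≤ cX P) :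
    ∃ Q : Pt d, Q ≠ 0 ∧ sm 2 Q = P ∧ cX P + c0 d ≤ cX Q := by
  have h1 := Real.sqrt_nonneg (cX P)
  have h2 := Real.sqrt_nonneg (cX P - d * ea ℝ)
  have h3 := Real.sqrt_nonneg (cX P - d * eb ℝ)
  have e1 := Real.sq_sqrt (le_trans (rt3_0 d) hX)
  have e2 := Real.sq_sqrt (sub_nonneg.2 (le_trans (rt3_a d) hX))
  have e3 := Real.sq_sqrt (sub_nonneg.2 (le_trans (rt3_b d) hX))
  obtain ⟨p1, p2, p3⟩ := pair_pos hd h1 h2 h3 e1 e2 e3
  have t1 : Real.sqrt (rt3 d) ≤ Real.sqrt (cX P) := Real.sqrt_le_sqrt hX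
  have t2 : Real.sqrt (rt3 d - d * ea ℝ) ≤ Real.sqrt (cX P - d * ea ℝ) :=
    Real.sqrt_le_sqrt (by linarith)
  have t3 : Real.sqrt (rt3 d - d * eb ℝ) ≤ Real.sqrt (cX P - d * eb ℝ) :=
    Real.sqrt_le_sqrt (by linarith)
  have hc : c0 d ≤ Real.sqrt (cX P) * Real.sqrt (cX P - d * ea ℝ)
      + Real.sqrt (cX P) * Real.sqrt (cX P - d * eb ℝ)
      + Real.sqrt (cX P - d * ea ℝ) * Real.sqrt (cX P - d * eb ℝ) := by
    unfold c0
    have u1 := mul_le_mul t1 t2 (Real.sqrt_nonneg _) h1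
    have u2 := mul_le_mul t1 t3 (Real.sqrt_nonneg _) h1
    have u3 := mul_le_mul t2 t3 (Real.sqrt_nonneg _) h2
    linarith
  have hxd : cX P = d * xn P := by
    unfold xn
    field_simp
  generalize Real.sqrt (cX P) = s1 at *
  generalize Real.sqrt (cX P - d * ea ℝ) = s2 at *
  generalize Real.sqrt (cX P - d * eb ℝ) = s3 at *
  have h20 : (2 : ℝ) ≠ 0 := two_ne_zero
  set x1 : ℝ := (cX P + s1 * s2 + s1 * s3 + s2 * s3) / d with hx1
  set y1 : ℝ := (s1 + s2) * (s1 + s3) * (s2 + s3) / d ^ 2 with hy1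
  have hy0 : y1 ≠ 0 :=
    div_ne_zero (mul_ne_zero (mul_ne_zero p1.ne' p2.ne') p3.ne') (pow_ne_zero 2 hd)
  have hc1 : cub x1 = ((s1 + s2) * (s1 + s3) * (s2 + s3)) ^ 2 / d ^ 3 := by
    have w1 : x1 = (s1 + s2) * (s1 + s3) / d := by
      rw [hx1]
      congr 1
      linear_combination -e1
    have w2 : x1 - ea ℝ = (s1 + s2) * (s2 + s3) / d := by
      rw [hx1, eq_div_iff hd, sub_mul, div_mul_cancel₀ _ hd]
      linear_combination -e2
    have w3 : x1 - eb ℝ = (s1 + s3) * (s2 + s3) / d := by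
      rw [hx1, eq_div_iff hd, sub_mul, div_mul_cancel₀ _ hd]
      linear_combination -e3
    unfold cub
    rw [w2, w3, w1]
    field_simp
  have heq : d * y1 ^ 2 = cub x1 := by
    rw [hc1, hy1]
    field_simp
  have hQ := isP_mk (d := d) (x := x1) (y := y1) h20 hd heq
  have hD := hQ.dbl h20 hd hy0
  have hQ0 := hQ.ne_zero
  have hXQ : cX (mkPt d (d * x1) (d ^ 2 * y1)) = cX P + s1 * s2 + s1 * s3 + s2 * s3 := by
    obtain ⟨hh, hh2⟩ := hQ
    rw [hh2]
    show d * x1 = _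
    rw [hx1]
    field_simp
  generalize mkPt d (d * x1) (d ^ 2 * y1) = Q at *
  have hxn : xn (Q + Q) = xn P := by
    rw [hD.xn_eq hd, hc1]
    have k1 : x1 ^ 2 - ea ℝ * eb ℝ = 2 * s1 * ((s1 + s2) * (s1 + s3) * (s2 + s3)) / d ^ 2 := by
      rw [hx1, eq_div_iff (pow_ne_zero 2 hd)]
      have k2 : ((cX P + s1 * s2 + s1 * s3 + s2 * s3) / d) ^ 2 * d ^ 2
          = (cX P + s1 * s2 + s1 * s3 + s2 * s3) ^ 2 := by
        field_simp
      have k3 : d * ea ℝ = s1 ^ 2 - s2 ^ 2 := by linear_combination e2 - e1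
      have k4 : d * eb ℝ = s1 ^ 2 - s3 ^ 2 := by linear_combination e3 - e1
      have k5 : ea ℝ * eb ℝ * d ^ 2 = (s1 ^ 2 - s2 ^ 2) * (s1 ^ 2 - s3 ^ 2) := by
        rw [← k3, ← k4]
        ring
      rw [sub_mul, k2, k5, ← e1]
      ring
    rw [k1]
    have hxn' : xn P = s1 ^ 2 / d := by
      rw [e1]
      rfl
    rw [hxn']
    have q1 := p1.ne'
    have q2 := p2.ne'
    have q3 := p3.ne'
    field_simp
    ring
  rcases eq_or_neg_of_xn hd hD.ne_zero hP hxn with h | h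
  · exact ⟨Q, hQ0, by rw [two_sm, h], by rw [hXQ]; linarith⟩
  · refine ⟨-Q, neg_ne_zero.2 hQ0, ?_, ?_⟩
    · rw [sm_neg, two_sm, h, neg_neg]
    · have : cX (-Q) = cX Q := by
        have := xn_neg Q
        unfold xn at this
        field_simp at this
        exact this
      rw [this, hXQ]
      linarith

theorem rhv : RhvStmt := by
  intro d hd P hP N
  rcases hP with rfl | hX
  · exact ⟨1, 0, le_refl _, by rw [sm_zero], Or.inl rfl⟩
  by_cases hP0 : P = 0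
  · subst hP0
    exact ⟨1, 0, le_refl _, by rw [sm_zero], Or.inl rfl⟩
  have key : ∀ m : ℕ, ∃ Q : Pt d, Q ≠ 0 ∧ sm (2 ^ m) Q = P ∧ cX P + m * c0 d ≤ cX Q := by
    intro m
    induction m with
    | zero => exact ⟨P, hP0, by rw [pow_zero, one_sm], by simp⟩
    | succ m ih =>
      obtain ⟨Q, h1, h2, h3⟩ := ih
      have hm : (0 : ℝ) ≤ m * c0 d := mul_nonneg (Nat.cast_nonneg m) (c0_pos hd).le
      obtain ⟨Q', k1, k2, k3⟩ := half_step hd Q h1 (by linarith)
      refine ⟨Q', k1, ?_, ?_⟩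
      · rw [pow_succ, mul_sm, k2, h2]
      · push_cast
        linarith
  obtain ⟨m, hm⟩ := exists_nat_gt ((|N| * |d| - cX P) / c0 d)
  obtain ⟨Q, h1, h2, h3⟩ := key (m + 1)
  refine ⟨m + 1, Q, by omega, h2, Or.inr ?_⟩
  rw [div_lt_iff₀ (c0_pos hd)] at hm
  have h4 : |N| * |d| < cX Q := by
    push_cast at h3
    have := c0_pos hd
    nlinarith
  rw [norm_div, Real.norm_eq_abs, Real.norm_eq_abs, lt_div_iff₀ (abs_pos.2 hd)]
  calc N * |d| ≤ |N| * |d| := mul_le_mul_of_nonneg_right (le_abs_self N) (abs_nonneg d)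
    _ < cX Q := h4
    _ ≤ |cX Q| := le_abs_self _

end Pool.Agent.WAQ.H95
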